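import Mathlib
import Pool.Agent.V11279.BesT

/-!
# A Besicovitch cylindrical transformation which is `γ`-Hölder for every `γ < 1`

Let `T x = x + φ` be the rotation of the circle by the golden ratio and let `F k` be the Fibonacci
numbers. The function `∑ k (cos (2π F_k x) - cos (2π F_k (x + φ)))` is `γ`-Hölder for every `γ < 1`.
Its Birkhoff sums over `0` are `∑ k (1 - cos (2π n φ^(-k)))`, and they tend to `+∞` for
`|n| → ∞`. So the orbit of `(0, 0)` is discrete, and there are dense orbits.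
-/

set_option autoImplicit false

open Filter Set Topology
open scoped NNReal
open Pool.Agent.V11279.BesT

namespace Pool.Agent.Results.MP_f73729_an.HolderBesicovitch

noncomputable section

/-- The rotation number: the golden ratio, as an element of the circle `ℝ / ℤ`. -/
def a : UnitAddCircle := (Real.goldenRatio : ℝ)

/-- `cos (2π x)` on the circle. -/
def cosT (x : UnitAddCircle) : ℝ := (AddCircle.toCircle x : ℂ).re

lemma cosT_coe (t : ℝ) : cosT (t : UnitAddCircle) = Real.cos (2 * Real.pi * t) := by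
  unfold cosT
  have := fourier_coe_apply (T := (1 : ℝ)) (n := 1) (x := t)
  rw [fourier_one] at this
  rw [this, show (2 * Real.pi * Complex.I * ((1 : ℤ) : ℂ) * (t : ℂ) / ((1 : ℝ) : ℂ))
    = ((2 * Real.pi * t : ℝ) : ℂ) * Complex.I by push_cast; ring, Complex.exp_ofReal_mul_I_re]

lemma zsmul_coe (k : ℤ) (t : ℝ) : k • (t : UnitAddCircle) = ((k * t : ℝ) : UnitAddCircle) := by
  rw [← zsmul_eq_mul]; rfl

lemma int_coe (k : ℤ) : ((k : ℝ) : UnitAddCircle) = 0 := by
  rw [AddCircle.coe_eq_zero_iff]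
  exact ⟨k, by simp⟩

lemma exists_rep (x : UnitAddCircle) : ∃ t : ℝ, (t : UnitAddCircle) = x ∧ |t| = ‖x‖ := by
  induction x using QuotientAddGroup.induction_on with
  | H s =>
    refine ⟨s - round s, ?_, ?_⟩
    · have : ((s - (round s : ℝ) : ℝ) : UnitAddCircle)
          = (s : UnitAddCircle) - ((round s : ℝ) : UnitAddCircle) := rfl
      rw [this, int_coe, sub_zero]
    · exact (UnitAddCircle.norm_eq).symm

lemma cos_sub_le (u v : ℝ) : |Real.cos u - Real.cos v| ≤ |u - v| := by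
  rw [Real.cos_sub_cos, abs_mul, abs_mul]
  have h1 := Real.abs_sin_le_one ((u + v) / 2)
  have h2 : |Real.sin ((u - v) / 2)| ≤ |(u - v) / 2| := Real.abs_sin_le_abs
  rw [abs_div] at h2
  simp only [abs_neg, Nat.abs_ofNat] at *
  have h3 := abs_nonneg (Real.sin ((u + v) / 2))
  have h4 := abs_nonneg (Real.sin ((u - v) / 2))
  nlinarith [abs_nonneg (u - v)]

/-- `β = 1 / φ`. -/
def β : ℝ := -Real.goldenConj

lemma β_pos : 0 < β := by unfold β; linarith [Real.goldenConj_neg]

lemma β_lt_one : β < 1 := by unfold β; linarith [Real.neg_one_lt_goldenConj]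

lemma fib_le (k : ℕ) : (Nat.fib k : ℝ) ≤ (β⁻¹) ^ k := by
  have hb : β⁻¹ = Real.goldenRatio := by
    unfold β
    rw [inv_neg, Real.inv_goldenConj, neg_neg]
  rw [hb]
  have h2 : Real.goldenRatio ^ 2 = Real.goldenRatio + 1 := Real.goldenRatio_sq
  induction k using Nat.strong_induction_on with
  | _ k ih =>
    match k with
    | 0 => simp
    | 1 => simpa using Real.one_lt_goldenRatio.le
    | k + 2 =>
      rw [Nat.fib_add_two]
      push_cast
      have e1 := ih k (by omega)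
      have e2 := ih (k + 1) (by omega)
      calc (Nat.fib k : ℝ) + Nat.fib (k + 1)
          ≤ Real.goldenRatio ^ k + Real.goldenRatio ^ (k + 1) := add_le_add e1 e2
        _ = Real.goldenRatio ^ (k + 2) := by rw [pow_add _ k 2, h2]; ring

/-- the frequencies -/
lemma fib_smul (k : ℕ) (m : ℤ) : (Nat.fib k : ℤ) • (m • a) =
    ((m * (-Real.goldenConj ^ k) : ℝ) : UnitAddCircle) := by
  unfold a
  rw [zsmul_coe, zsmul_coe]
  have h := Real.fib_succ_sub_goldenRatio_mul_fib k
  have h1 : ((Nat.fib k : ℤ) : ℝ) * (m * Real.goldenRatio)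
      = m * (-Real.goldenConj ^ k) + ((m * Nat.fib (k + 1) : ℤ) : ℝ) := by
    push_cast
    rw [← h]; ring
  rw [h1, AddCircle.coe_add, int_coe, add_zero]

/-- the `k`-th term of the `m`-th Birkhoff sum -/
def term (k : ℕ) (m : ℤ) (x : UnitAddCircle) : ℝ :=
  (k : ℝ) * (cosT ((Nat.fib k : ℤ) • x) - cosT ((Nat.fib k : ℤ) • (x + m • a)))

lemma abs_conj_pow (k : ℕ) : |(-Real.goldenConj ^ k : ℝ)| = β ^ k := by
  rw [abs_neg, abs_pow, abs_of_neg Real.goldenConj_neg]
  rfl

lemma term_abs_le (k : ℕ) (m : ℤ) (x : UnitAddCircle) :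
    |term k m x| ≤ 2 * Real.pi * |(m : ℝ)| * ((k : ℝ) * β ^ k) := by
  obtain ⟨t, ht, -⟩ := exists_rep ((Nat.fib k : ℤ) • x)
  unfold term
  rw [smul_add, fib_smul, ← ht, ← AddCircle.coe_add, cosT_coe, cosT_coe, abs_mul, Nat.abs_cast]
  have h := cos_sub_le (2 * Real.pi * t) (2 * Real.pi * (t + m * (-Real.goldenConj ^ k)))
  have h2 : |2 * Real.pi * t - 2 * Real.pi * (t + m * (-Real.goldenConj ^ k))|
      = 2 * Real.pi * (|(m : ℝ)| * β ^ k) := by
    rw [show 2 * Real.pi * t - 2 * Real.pi * (t + m * (-Real.goldenConj ^ k))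
      = -(2 * Real.pi * (m * (-Real.goldenConj ^ k))) by ring, abs_neg, abs_mul, abs_mul (m : ℝ),
      abs_of_pos Real.two_pi_pos, abs_conj_pow]
  rw [h2] at h
  calc (k : ℝ) * _ ≤ k * (2 * Real.pi * (|(m : ℝ)| * β ^ k)) := by gcongr
    _ = _ := by ring

lemma summable_nr : Summable (fun n : ℕ => (n : ℝ) * β ^ n) := by
  have := summable_pow_mul_geometric_of_norm_lt_one (R := ℝ) 1 (r := β)
    (by rw [Real.norm_eq_abs, abs_of_pos β_pos]; exact β_lt_one)
  simpa using this

lemma summable_term (m : ℤ) (x : UnitAddCircle) : Summable (fun k => term k m x) := by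
  apply Summable.of_norm_bounded (summable_nr.mul_left (2 * Real.pi * |(m : ℝ)|))
  intro k
  exact term_abs_le k m x

/-- The function `∑ k (cos (2π F_k x) - cos (2π F_k (x + a)))`. -/
def f (x : UnitAddCircle) : ℝ := ∑' k, term k 1 x

lemma S_eq (m : ℤ) : ∀ x, S a f m x = ∑' k, term k m x := by
  have hstep : ∀ (m : ℤ) (x : UnitAddCircle), ∑' k, term k (m + 1) x
      = ∑' k, term k m x + f (x + m • a) := by
    intro m x
    unfold f
    rw [← (summable_term m x).tsum_add (summable_term 1 _)]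
    congr 1
    ext n
    unfold term
    rw [add_smul m 1 a, one_smul, add_assoc]
    ring
  induction m using Int.induction_on with
  | zero => intro x; simp [S_zero, term]
  | succ m ih =>
    intro x
    rw [hstep, ← ih, add_comm (m : ℤ) 1, S_add, S_one]
  | pred m ih =>
    intro x
    have h1 := hstep (-(m : ℤ) - 1) x
    have h2 := S_add (a := a) (φ := f) 1 (-(m : ℤ) - 1) x
    rw [S_one] at h2
    rw [sub_add_cancel] at h1
    rw [show (1 : ℤ) + (-(m : ℤ) - 1) = -(m : ℤ) by ring, ih] at h2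
    linarith

lemma term_zero (k : ℕ) (m : ℤ) :
    term k m 0 = k * (1 - Real.cos (2 * Real.pi * (|(m : ℝ)| * β ^ k))) := by
  unfold term
  have h0 : (Nat.fib k : ℤ) • (0 : UnitAddCircle) = ((0 : ℝ) : UnitAddCircle) := by simp
  rw [zero_add, h0, fib_smul, cosT_coe, cosT_coe, ← Real.cos_abs (2 * Real.pi * (m * _)), abs_mul,
    abs_of_pos Real.two_pi_pos, abs_mul (m : ℝ), abs_conj_pow]
  simp

lemma term_zero_nonneg (k : ℕ) (m : ℤ) : 0 ≤ term k m 0 := by
  rw [term_zero]
  have := Real.cos_le_one (2 * Real.pi * (|(m : ℝ)| * β ^ k))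
  have h0 : (0 : ℝ) ≤ k := Nat.cast_nonneg k
  nlinarith

/-- the gain -/
def κ : ℝ := 1 - Real.cos (Real.pi * β)

lemma κ_pos : 0 < κ := by
  unfold κ
  have h1 := β_pos
  have h2 := β_lt_one
  have hpi := Real.pi_pos
  have : Real.cos (Real.pi * β) < Real.cos 0 := by
    apply Real.cos_lt_cos_of_nonneg_of_le_pi le_rfl
    · nlinarith
    · positivity
  rw [Real.cos_zero] at this
  linarith

lemma exists_good (m : ℤ) (hm : m ≠ 0) : ∃ N : ℕ, |(m : ℝ)| * β ^ N ≤ 1 / 2 ∧
    β / 2 ≤ |(m : ℝ)| * β ^ N ∧ (N : ℝ) * κ ≤ S a f m 0 := by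
  have hm1 : (1 : ℝ) ≤ |(m : ℝ)| := by
    have := Int.one_le_abs hm
    exact_mod_cast this
  have hβ0 := β_pos
  have hβ1 := β_lt_one
  have hex : ∃ N : ℕ, |(m : ℝ)| * β ^ N ≤ 1 / 2 := by
    have h := (tendsto_pow_atTop_nhds_zero_of_lt_one hβ0.le hβ1).const_mul |(m : ℝ)|
    rw [mul_zero] at h
    have := h.eventually (ge_mem_nhds (show (0 : ℝ) < 1 / 2 by norm_num))
    exact this.exists
  classical
  set N := Nat.find hex with hN
  have h1 : |(m : ℝ)| * β ^ N ≤ 1 / 2 := Nat.find_spec hex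
  have h2 : β / 2 ≤ |(m : ℝ)| * β ^ N := by
    have hN0 : N ≠ 0 := by
      intro h0
      rw [h0] at h1
      norm_num at h1
      linarith
    obtain ⟨k, hk⟩ := Nat.exists_eq_succ_of_ne_zero hN0
    have h3 := Nat.find_min hex (m := k) (by omega)
    push Not at h3
    rw [hk, pow_succ]
    nlinarith
  refine ⟨N, h1, h2, ?_⟩
  have hcos : Real.cos (2 * Real.pi * (|(m : ℝ)| * β ^ N)) ≤ Real.cos (Real.pi * β) := by
    have hpi := Real.pi_pos
    apply Real.cos_le_cos_of_nonneg_of_le_pi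
    · positivity
    · nlinarith
    · nlinarith
  rw [S_eq]
  calc (N : ℝ) * κ ≤ term N m 0 := by
        rw [term_zero]
        have h0 : (0 : ℝ) ≤ N := Nat.cast_nonneg N
        unfold κ
        nlinarith
    _ ≤ ∑' n, term n m 0 := (summable_term m 0).le_tsum N (fun n _ => term_zero_nonneg n m)

lemma tendsto_S : Tendsto (fun m : ℤ => S a f m 0) cofinite atTop := by
  rw [tendsto_atTop]
  intro K
  rw [eventually_cofinite]
  have hκ := κ_pos
  set L : ℕ := ⌈K / κ⌉₊ with hL
  set B : ℤ := ⌈(β⁻¹) ^ L⌉ with hB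
  apply (Set.finite_Icc (-B) B).subset
  intro m hm
  rw [mem_Icc, ← abs_le]
  by_cases hm0 : m = 0
  · rw [hm0, abs_zero]
    apply Int.ceil_nonneg
    have := β_pos
    positivity
  obtain ⟨N, h1, -, h2⟩ := exists_good m hm0
  have hm' : ¬ K ≤ S a f m 0 := hm
  have hNK : (N : ℝ) < K / κ := by
    rw [lt_div_iff₀ hκ]
    linarith [not_le.1 hm']
  have hNL : N ≤ L := by
    have : (N : ℝ) ≤ L := hNK.le.trans (Nat.le_ceil _)
    exact_mod_cast this
  have hr := β_pos
  have h3 : |(m : ℝ)| ≤ (β⁻¹) ^ N := by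
    rw [inv_pow, ← one_div, le_div_iff₀ (pow_pos hr N)]
    linarith
  have h4 : (β⁻¹) ^ N ≤ (β⁻¹) ^ L :=
    pow_le_pow_right₀ ((one_le_inv₀ hr).2 β_lt_one.le) hNL
  have h5 : ((|m| : ℤ) : ℝ) ≤ B := by
    push_cast
    exact (h3.trans h4).trans (Int.le_ceil _)
  exact_mod_cast h5

/-! ### Hölder continuity -/

/-- Lipschitz bound of a term, with the right constant. -/
lemma term_sub_le (k : ℕ) (x y : UnitAddCircle) :
    |term k 1 x - term k 1 y| ≤ (k : ℝ) * β ^ k * (4 * Real.pi ^ 2 * (Nat.fib k * dist x y)) := by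
  obtain ⟨s, hs, -⟩ := exists_rep y
  obtain ⟨d, hd, hd'⟩ := exists_rep (x - y)
  have hx : x = ((s + d : ℝ) : UnitAddCircle) := by
    rw [AddCircle.coe_add, hs, hd]; abel
  have key : ∀ t : ℝ, term k 1 (t : UnitAddCircle) =
      (2 * k * Real.sin (Real.pi * (-Real.goldenConj ^ k))) *
        Real.sin (2 * Real.pi * (Nat.fib k * t) + Real.pi * (-Real.goldenConj ^ k)) := by
    intro t
    unfold term
    rw [smul_add, fib_smul, zsmul_coe, ← AddCircle.coe_add, cosT_coe, cosT_coe, Real.cos_sub_cos]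
    have e1 : (2 * Real.pi * (((Nat.fib k : ℤ) : ℝ) * t) +
        2 * Real.pi * (((Nat.fib k : ℤ) : ℝ) * t + ((1 : ℤ) : ℝ) * (-Real.goldenConj ^ k))) / 2
        = 2 * Real.pi * (Nat.fib k * t) + Real.pi * (-Real.goldenConj ^ k) := by push_cast; ring
    have e2 : (2 * Real.pi * (((Nat.fib k : ℤ) : ℝ) * t) -
        2 * Real.pi * (((Nat.fib k : ℤ) : ℝ) * t + ((1 : ℤ) : ℝ) * (-Real.goldenConj ^ k))) / 2
        = -(Real.pi * (-Real.goldenConj ^ k)) := by push_cast; ring
    rw [e1, e2, Real.sin_neg]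
    ring
  rw [hx, ← hs, key, key, ← mul_sub, abs_mul, abs_mul, abs_mul, Nat.abs_cast, abs_two]
  have h1 : |Real.sin (Real.pi * (-Real.goldenConj ^ k))| ≤ Real.pi * β ^ k := by
    refine Real.abs_sin_le_abs.trans ?_
    rw [abs_mul, abs_of_pos Real.pi_pos, abs_conj_pow]
  have h2 : |Real.sin (2 * Real.pi * (Nat.fib k * (s + d)) + Real.pi * (-Real.goldenConj ^ k)) -
      Real.sin (2 * Real.pi * (Nat.fib k * s) + Real.pi * (-Real.goldenConj ^ k))| ≤
      2 * Real.pi * (Nat.fib k * dist x y) := by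
    have h3 := cos_sub_le
      (2 * Real.pi * (Nat.fib k * (s + d)) + Real.pi * (-Real.goldenConj ^ k) - Real.pi / 2)
      (2 * Real.pi * (Nat.fib k * s) + Real.pi * (-Real.goldenConj ^ k) - Real.pi / 2)
    rw [Real.cos_sub_pi_div_two, Real.cos_sub_pi_div_two] at h3
    refine h3.trans (le_of_eq ?_)
    rw [show 2 * Real.pi * (Nat.fib k * (s + d)) + Real.pi * (-Real.goldenConj ^ k) - Real.pi / 2
      - (2 * Real.pi * (Nat.fib k * s) + Real.pi * (-Real.goldenConj ^ k) - Real.pi / 2)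
      = 2 * Real.pi * (Nat.fib k * d) by ring, abs_mul (2 * Real.pi), abs_mul (Nat.fib k : ℝ),
      Nat.abs_cast, abs_of_pos Real.two_pi_pos, hd', dist_eq_norm]
  rw [← hx, hs]
  calc 2 * (k : ℝ) * |Real.sin (Real.pi * (-Real.goldenConj ^ k))| * _
      ≤ 2 * (k : ℝ) * (Real.pi * β ^ k) * (2 * Real.pi * (Nat.fib k * dist x y)) := by
        have := β_pos
        have := Real.pi_pos
        gcongr
    _ = _ := by ring

/-- Hölder bound for a term. -/
lemma term_holder (k : ℕ) (γ : ℝ) (h0 : 0 ≤ γ) (h1 : γ ≤ 1) (x y : UnitAddCircle) :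
    |term k 1 x - term k 1 y| ≤
      (4 * Real.pi ^ 2) * ((k : ℝ) * (β ^ (1 - γ)) ^ k) * dist x y ^ γ := by
  have hb := β_pos
  have hb1 := β_lt_one
  have hpi : (1 : ℝ) ≤ Real.pi := by linarith [Real.pi_gt_three]
  have e1 := term_sub_le k x y
  have e2 : |term k 1 x - term k 1 y| ≤ (k : ℝ) * β ^ k * (4 * Real.pi ^ 2 * 1) := by
    have a1 := term_abs_le k 1 x
    have a2 := term_abs_le k 1 y
    have a3 := abs_sub (term k 1 x) (term k 1 y)
    simp only [Int.cast_one, abs_one, mul_one] at a1 a2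
    have h5 : (0 : ℝ) ≤ (k : ℝ) * β ^ k := by positivity
    have h6 : 4 * Real.pi * ((k : ℝ) * β ^ k) ≤ 4 * Real.pi ^ 2 * ((k : ℝ) * β ^ k) := by
      apply mul_le_mul_of_nonneg_right _ h5
      nlinarith
    linarith
  have hmin : |term k 1 x - term k 1 y| ≤
      (k : ℝ) * β ^ k * (4 * Real.pi ^ 2 * min (Nat.fib k * dist x y) 1) := by
    rcases min_choice (Nat.fib k * dist x y) 1 with h | h
    · rw [h]; exact e1
    · rw [h]; exact e2
  have hpow : min ((Nat.fib k : ℝ) * dist x y) 1 ≤ ((Nat.fib k : ℝ) * dist x y) ^ γ := by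
    have hnn : 0 ≤ (Nat.fib k : ℝ) * dist x y := by positivity
    rcases le_total 1 ((Nat.fib k : ℝ) * dist x y) with h | h
    · rw [min_eq_right h]
      exact Real.one_le_rpow h h0
    · rw [min_eq_left h]
      rcases hnn.eq_or_lt with h' | h'
      · rw [← h']
        exact Real.rpow_nonneg le_rfl _
      · calc (Nat.fib k : ℝ) * dist x y = ((Nat.fib k : ℝ) * dist x y) ^ (1 : ℝ) :=
              (Real.rpow_one _).symm
          _ ≤ _ := Real.rpow_le_rpow_of_exponent_ge h' h h1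
  have hfib : ((Nat.fib k : ℝ) * dist x y) ^ γ ≤ ((β⁻¹) ^ k) ^ γ * dist x y ^ γ := by
    rw [Real.mul_rpow (by positivity) dist_nonneg]
    gcongr
    exact fib_le k
  have hbk : β ^ k * ((β⁻¹) ^ k) ^ γ = (β ^ (1 - γ)) ^ k := by
    rw [← Real.rpow_natCast β k, ← Real.rpow_natCast (β ^ (1 - γ)) k, ← Real.rpow_natCast (β⁻¹) k,
      ← Real.rpow_mul (by positivity), ← Real.rpow_mul hb.le, Real.inv_rpow hb.le,
      ← Real.rpow_neg hb.le, ← Real.rpow_add hb]
    congr 1
    ring
  calc |term k 1 x - term k 1 y| ≤ (k : ℝ) * β ^ k * (4 * Real.pi ^ 2 *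
        (((β⁻¹) ^ k) ^ γ * dist x y ^ γ)) := by
        refine hmin.trans ?_
        have := hpow.trans hfib
        gcongr
    _ = (4 * Real.pi ^ 2) * ((k : ℝ) * (β ^ k * ((β⁻¹) ^ k) ^ γ)) * dist x y ^ γ := by ring
    _ = _ := by rw [hbk]

lemma holder_f (γ : ℝ≥0) (hγ : γ < 1) : ∃ C : ℝ≥0, HolderWith C γ f := by
  have hb := β_pos
  have hb1 := β_lt_one
  have hγ' : (γ : ℝ) < 1 := by exact_mod_cast hγ
  set r : ℝ := β ^ (1 - (γ : ℝ)) with hr
  have hr0 : 0 < r := Real.rpow_pos_of_pos hb _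
  have hr1 : r < 1 := Real.rpow_lt_one hb.le hb1 (by linarith)
  have hsum : Summable (fun n : ℕ => (n : ℝ) * r ^ n) := by
    have := summable_pow_mul_geometric_of_norm_lt_one (R := ℝ) 1 (r := r)
      (by rw [Real.norm_eq_abs, abs_of_pos hr0]; exact hr1)
    simpa using this
  set C : ℝ := 4 * Real.pi ^ 2 * ∑' n : ℕ, (n : ℝ) * r ^ n with hC
  have hC0 : 0 ≤ C := by
    have : 0 ≤ ∑' n : ℕ, (n : ℝ) * r ^ n := tsum_nonneg fun n => by positivity
    positivity
  refine ⟨C.toNNReal, ?_⟩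
  have hreal : ∀ x y, |f x - f y| ≤ C * dist x y ^ (γ : ℝ) := by
    intro x y
    have hs := (summable_term 1 x).sub (summable_term 1 y)
    unfold f
    rw [← (summable_term 1 x).tsum_sub (summable_term 1 y)]
    have hbound := fun k => term_holder k γ γ.2 hγ'.le x y
    have hs2 : Summable fun k : ℕ =>
        (4 * Real.pi ^ 2) * ((k : ℝ) * (β ^ (1 - (γ : ℝ))) ^ k) * dist x y ^ (γ : ℝ) :=
      (hsum.mul_left _).mul_right _
    have := tsum_of_norm_bounded hs2.hasSum (f := fun k => term k 1 x - term k 1 y) hbound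
    rw [Real.norm_eq_abs] at this
    refine this.trans (le_of_eq ?_)
    rw [tsum_mul_right, tsum_mul_left]
  intro x y
  rw [edist_dist, edist_dist, Real.dist_eq, ENNReal.ofReal_rpow_of_nonneg dist_nonneg γ.coe_nonneg]
  change _ ≤ ENNReal.ofReal C * _
  rw [← ENNReal.ofReal_mul hC0]
  exact ENNReal.ofReal_le_ofReal (hreal x y)

lemma continuous_f : Continuous f := by
  obtain ⟨C, hC⟩ := holder_f (1 / 2) (by
    rw [← NNReal.coe_lt_coe]; norm_num)
  exact hC.continuous (by norm_num)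

theorem isBesicovitch : IsBesicovitch a f := by
  have hdense : DenseRange (fun n : ℤ => n • a) := by
    have := (AddCircle.denseRange_zsmul_coe_iff (p := (1 : ℝ)) (a := Real.goldenRatio)).2
      (by simpa using Real.goldenRatio_irrational)
    exact this
  have hqt : Tendsto (fun j : ℕ => (Nat.fib j : ℤ)) atTop atTop := by
    apply tendsto_natCast_atTop_atTop.comp
    exact tendsto_atTop_atTop.2 fun b => ⟨b + 5, fun n hn => by
      have h1 : b + 5 ≤ Nat.fib (b + 5) := Nat.le_fib_self (by omega)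
      exact (by omega : b ≤ b + 5).trans (h1.trans (Nat.fib_mono hn))⟩
  have hpow : Tendsto (fun j : ℕ => β ^ j) atTop (𝓝 0) :=
    tendsto_pow_atTop_nhds_zero_of_lt_one β_pos.le β_lt_one
  refine isBesicovitch_of continuous_f hdense tendsto_S (fun j => (Nat.fib j : ℤ))
    (fun j t => ((-(t * (-Real.goldenConj ^ j)) : ℝ) : UnitAddCircle)) ?_ ?_ ?_ ?_ ?_ ?_
  · exact hqt.mono_right (by simp [Int.cofinite_eq])
  · exact (tendsto_neg_atTop_atBot.comp hqt).mono_right (by simp [Int.cofinite_eq])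
  · intro j
    exact (AddCircle.continuous_mk' (1 : ℝ)).comp (by fun_prop)
  · intro j
    simp
  · intro j
    have := fib_smul j 1
    rw [one_smul] at this
    rw [this, ← AddCircle.coe_neg]
    simp
  · intro t ht
    have h0 : Tendsto (fun j => -(t j * (-Real.goldenConj ^ j))) atTop (𝓝 0) := by
      apply squeeze_zero_norm' _ hpow
      filter_upwards [ht] with j hj
      rw [norm_neg, norm_mul, Real.norm_eq_abs (t j), abs_of_nonneg hj.1, Real.norm_eq_abs,
        abs_conj_pow]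
      exact mul_le_of_le_one_left (pow_nonneg β_pos.le _) hj.2
    have h : Tendsto (fun j => ((-(t j * (-Real.goldenConj ^ j)) : ℝ) : UnitAddCircle)) atTop
        (𝓝 ((0 : ℝ) : UnitAddCircle)) :=
      ((AddCircle.continuous_mk' (1 : ℝ)).tendsto 0).comp h0
    exact h

end

/-- There are an irrational number `α` (the golden ratio) and a function `φ` on the circle `ℝ / ℤ`
which is `γ`-Hölder continuous for every exponent `γ < 1`, such that the cylindrical transformation
`T_φ (x, y) = (x + α, y + φ x)` of `ℝ / ℤ × ℝ` is Besicovitch: some orbit is dense in `ℝ / ℤ × ℝ`,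
and some orbit has no accumulation point; in fact the Birkhoff sums `φ^(n)(0)` tend to `+∞` for
`|n| → ∞`. -/
theorem result : ∃ α : ℝ, Irrational α ∧ ∃ φ : UnitAddCircle → ℝ,
    (∀ γ : ℝ≥0, γ < 1 → ∃ C : ℝ≥0, HolderWith C γ φ) ∧
    (∃ p, Dense (orbit (α : UnitAddCircle) φ p)) ∧
    (∃ p, ∀ z, ¬ AccPt z (𝓟 (orbit (α : UnitAddCircle) φ p))) ∧
    Tendsto (fun n : ℤ => (((cyl (α : UnitAddCircle) φ) ^ n) (0, 0)).2) cofinite atTop :=
  ⟨Real.goldenRatio, Real.goldenRatio_irrational, f, holder_f,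
    isBesicovitch.exists_dense_orbit, isBesicovitch.exists_discrete_orbit, tendsto_S⟩

end Pool.Agent.Results.MP_f73729_an.HolderBesicovitch
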